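import Pool.Agent.Q9h3.AB.P3
import Pool.Agent.Q9h3.AB.HardAll

/-!
# Recognising alternation-free hypergraphs: ABA is in P, everything longer is NP-complete
-/

set_option autoImplicit false

namespace Pool.Agent.Results.MP_71902e_lc.Dichotomy

open Pool.Agent.Lib.CX Pool.Agent.Q9h3.AB

/-- Deciding whether a hypergraph is ABA-free is in P, and for every `t ≥ 4` deciding whether it is
free of alternations of length `t` is NP-complete. -/
theorem result :
    (InP fun H : {H : Hyp // Valid H} => AltFree 3 H.1) ∧
    ∀ t : ℕ, 4 ≤ t → NPComplete fun H : {H : Hyp // Valid H} => AltFree t H.1 :=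
  ⟨inP3, fun _ ht => complete_of_four_le ht⟩

end Pool.Agent.Results.MP_71902e_lc.Dichotomy
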